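import Mathlib

set_option autoImplicit false
set_option linter.unusedSimpArgs false
set_option linter.unusedVariables false

/-!
# The Hanson-Toft graphs `G_k` have no minimal orientation, for every `k ≥ 4`
-/

namespace Pool.Agent.Results.MP_c69494_co.NoMinimalOrientation

/-- The vertices of `G_k`: `Sum.inl i` is the vertex `x_{i+1}` of the 7-cycle, `Sum.inr (i, a)` is
the `a`-th vertex of the complete graph `G_{i+1}` on `k - 3` vertices (`i : Fin 7`). -/
abbrev Vert (k : ℕ) : Type := Fin 7 ⊕ (Fin 7 × Fin (k - 3))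

/-- Adjacency in `G_k`; additions are modulo 7. -/
def adjRel (k : ℕ) : Vert k → Vert k → Prop
  | .inl i, .inl j => j = i + 1 ∨ i = j + 1
  | .inl i, .inr (j, _) => i = j ∨ i = j + 1 ∨ i = j + 3
  | .inr (j, _), .inl i => i = j ∨ i = j + 1 ∨ i = j + 3
  | .inr (i, a), .inr (j, b) => i = j ∧ a ≠ b

/-- The graph `G_k`. -/
def graph (k : ℕ) : SimpleGraph (Vert k) where
  Adj := adjRel k
  symm := ⟨fun u v h => by
    rcases u with i | ⟨i, a⟩ <;> rcases v with j | ⟨j, b⟩ <;> simp only [adjRel] at h ⊢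
    · exact h.symm
    · exact h
    · exact h
    · exact ⟨h.1.symm, h.2.symm⟩⟩
  loopless := ⟨fun u h => by
    rcases u with i | ⟨i, a⟩ <;> simp only [adjRel] at h
    · revert i; decide
    · exact h.2 rfl⟩

/-- `A` is an orientation of `G`: each edge gets exactly one of its two directions. -/
structure IsOrientation {V : Type} (G : SimpleGraph V) (A : V → V → Prop) : Prop where
  adj_of_arc : ∀ u v, A u v → G.Adj u v
  arc_of_adj : ∀ u v, G.Adj u v → A u v ∨ A v u
  asymm : ∀ u v, A u v → ¬ A v u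

/-- `p` lists the vertices of a directed path on `n` vertices. -/
def IsDirPath {V : Type} (A : V → V → Prop) {n : ℕ} (p : Fin n → V) : Prop :=
  Function.Injective p ∧ ∀ i j : Fin n, (j : ℕ) = (i : ℕ) + 1 → A (p i) (p j)

/-- `A` is a minimal orientation of the `k`-critical graph `G`: it contains exactly one directed
path on `k` vertices. -/
def IsMinimalOrientation {V : Type} (k : ℕ) (G : SimpleGraph V) (A : V → V → Prop) : Prop :=
  IsOrientation G A ∧ ∃! p : Fin k → V, IsDirPath A p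

section levels

variable {V : Type} {A : V → V → Prop}

/-- A level function: each vertex of level at least 2 has an in-neighbour one level below. -/
def Good (A : V → V → Prop) (f : V → ℕ) : Prop :=
  ∀ v, 1 ≤ f v ∧ (2 ≤ f v → ∃ u, A u v ∧ f v = f u + 1)

lemma asc {f : V → ℕ} (hf : Good A f) : ∀ n v, f v = n → ∃ p : ℕ → V, p n = v ∧
    (∀ i, 1 ≤ i → i ≤ n → f (p i) = i) ∧ (∀ i, 1 ≤ i → i < n → A (p i) (p (i + 1))) := by
  intro n
  induction n with
  | zero => intro v hv; have := (hf v).1; omega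
  | succ n ih =>
    intro v hv
    rcases Nat.eq_zero_or_pos n with h0 | h0
    · subst h0
      refine ⟨fun _ => v, rfl, ?_, ?_⟩
      · intro i h1 h2
        have : i = 1 := by omega
        subst this; exact hv
      · intro i h1 h2; omega
    · obtain ⟨u, hu, hfu⟩ := (hf v).2 (by omega)
      obtain ⟨p, hp1, hp2, hp3⟩ := ih u (by omega)
      refine ⟨Function.update p (n + 1) v, by simp, ?_, ?_⟩
      · intro i h1 h2
        rcases Nat.lt_or_ge n i with h | h
        · have : i = n + 1 := by omega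
          subst this; simp [hv]
        · rw [Function.update_of_ne (by omega)]; exact hp2 i h1 h
      · intro i h1 h2
        rcases Nat.lt_or_ge i n with h | h
        · rw [Function.update_of_ne (by omega), Function.update_of_ne (by omega)]
          exact hp3 i h1 h
        · have : i = n := by omega
          subst this
          rw [Function.update_of_ne (by omega), Function.update_self, hp1]; exact hu

/-- A level path gives a directed path. -/
lemma isDirPath_of_levels {f : V → ℕ} {k : ℕ} {q : ℕ → V} (s : ℕ)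
    (h1 : ∀ i, 1 ≤ i → i ≤ k → f (q (i + s)) = i + s)
    (h2 : ∀ i, 1 ≤ i → i < k → A (q (i + s)) (q (i + s + 1))) :
    IsDirPath A (fun i : Fin k => q ((i : ℕ) + 1 + s)) := by
  constructor
  · intro i j hij
    have h := congrArg f hij
    simp only at h
    rw [h1 _ (by omega) (by omega), h1 _ (by omega) (by omega)] at h
    exact Fin.ext (by omega)
  · intro i j hij
    have := h2 (i + 1) (by omega) (by have := j.isLt; omega)
    simp only
    have e : (j : ℕ) + 1 + s = (i : ℕ) + 1 + s + 1 := by omega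
    rw [e]; exact this

lemma level_le {k : ℕ} (hk : 1 ≤ k) (hu : ∃! p : Fin k → V, IsDirPath A p) {f : V → ℕ}
    (hf : Good A f) (v : V) : f v ≤ k := by
  by_contra hcon
  push Not at hcon
  obtain ⟨q, hq1, hq2, hq3⟩ := asc hf (f v) v rfl
  obtain ⟨p, -, hp⟩ := hu
  have e1 := hp _ (isDirPath_of_levels (A := A) (f := f) (k := k) (q := q) 0
    (fun i h1 h2 => hq2 _ (by omega) (by omega)) (fun i h1 h2 => hq3 _ (by omega) (by omega)))
  have e2 := hp _ (isDirPath_of_levels (A := A) (f := f) (k := k) (q := q) 1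
    (fun i h1 h2 => hq2 _ (by omega) (by omega)) (fun i h1 h2 => hq3 _ (by omega) (by omega)))
  have e3 := congrArg f (congrFun (e1.trans e2.symm) ⟨0, hk⟩)
  simp only at e3
  rw [hq2 _ (by omega) (by omega), hq2 _ (by omega) (by omega)] at e3
  omega

lemma exists_max [Fintype V] {k : ℕ} (hk : 1 ≤ k) (hu : ∃! p : Fin k → V, IsDirPath A p) :
    ∃ f : V → ℕ, Good A f ∧ ∀ g : V → ℕ, Good A g → ∑ v, g v ≤ ∑ v, f v := by
  let S : Set ℕ := {s | ∃ f : V → ℕ, Good A f ∧ ∑ v, f v = s}
  have hne : S.Nonempty := ⟨_, fun _ => 1, fun v => ⟨le_refl _, fun h => by simp at h⟩, rfl⟩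
  have hb : BddAbove S := by
    refine ⟨Fintype.card V * k, ?_⟩
    rintro s ⟨f, hf, rfl⟩
    calc ∑ v, f v ≤ ∑ _v : V, k := Finset.sum_le_sum (fun v _ => level_le hk hu hf v)
      _ = Fintype.card V * k := by simp
  obtain ⟨f, hf, hs⟩ := Nat.sSup_mem hne hb
  refine ⟨f, hf, fun g hg => ?_⟩
  rw [hs]
  exact le_csSup hb ⟨g, hg, rfl⟩

/-- Along an arc of the orientation, a maximum level function never stays constant and never
drops by exactly one. -/
lemma no_tight [Fintype V] (hA : ∀ u v, A u v → ¬ A v u) {f : V → ℕ} (hf : Good A f)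
    (hmax : ∀ g : V → ℕ, Good A g → ∑ v, g v ≤ ∑ v, f v) {x y : V} (hxy : A x y) :
    ¬ (f x = f y ∨ f x = f y + 1) := by
  classical
  intro h
  let T : V → V → Prop := fun a b => A a b ∧ f b = f a + 1
  let R : V → Prop := fun v => Relation.ReflTransGen T y v
  have hR : ∀ v, R v → v = y ∨ (A y v ∧ f v = f y + 1) ∨ f y + 2 ≤ f v := by
    intro v hv
    induction hv with
    | refl => exact Or.inl rfl
    | tail h1 h2 ih =>
      rcases ih with ih | ih | ih
      · subst ih; exact Or.inr (Or.inl h2)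
      · right; right; have := h2.2; omega
      · right; right; have := h2.2; omega
  have hx : ¬ R x := by
    intro hx
    rcases hR x hx with h' | h' | h'
    · subst h'; exact hA _ _ hxy hxy
    · exact hA _ _ hxy h'.1
    · omega
  let g : V → ℕ := fun v => if R v then f v + (f x + 1 - f y) else f v
  have hg : Good A g := by
    intro v
    constructor
    · have := (hf v).1
      simp only [g]; split_ifs <;> omega
    · intro h2
      by_cases hv : R v
      · rcases Relation.ReflTransGen.cases_tail hv with e | ⟨b, hb, hbv⟩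
        · refine ⟨x, e ▸ hxy, ?_⟩
          have hy : R y := Relation.ReflTransGen.refl
          simp only [g, e, hy, hx, if_true, if_false]
          omega
        · refine ⟨b, hbv.1, ?_⟩
          have hb' : R b := hb
          simp only [g, hb', hv, if_true]
          have := hbv.2
          omega
      · have e : g v = f v := by simp only [g, hv, if_false]
        rw [e] at h2 ⊢
        obtain ⟨u, hu1, hu2⟩ := (hf v).2 h2
        have hu : ¬ R u := fun h' => hv (Relation.ReflTransGen.tail h' ⟨hu1, hu2⟩)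
        refine ⟨u, hu1, ?_⟩
        simp only [g, hu, if_false]
        exact hu2
  have hle : ∑ v, f v < ∑ v, g v := by
    apply Finset.sum_lt_sum
    · intro v _; simp only [g]; split_ifs <;> omega
    · refine ⟨y, Finset.mem_univ _, ?_⟩
      have hy : R y := Relation.ReflTransGen.refl
      simp only [g, hy, if_true]; omega
  have := hmax g hg
  omega

/-- From a minimal orientation we get a level colouring and a set `On` of vertices (those of the
unique directed path) that is closed under descending by one level and has at most one vertex in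
each level. -/
lemma exists_levels [Fintype V] {G : SimpleGraph V} {k : ℕ} (hk : 1 ≤ k)
    (hmin : IsMinimalOrientation k G A) :
    ∃ (f : V → ℕ) (On : V → Prop), (∀ v, 1 ≤ f v) ∧ (∀ v, f v ≤ k) ∧
      (∀ u v, G.Adj u v → f u ≠ f v) ∧ (∀ v, f v = k → On v) ∧
      (∀ u v, On v → G.Adj u v → f v = f u + 1 → On u) ∧
      (∀ u v, On u → On v → f u = f v → u = v) := by
  obtain ⟨hor, huniq⟩ := hmin
  obtain ⟨f, hf, hmax⟩ := exists_max hk huniq
  have hle := level_le hk huniq hf
  have htight : ∀ {x y}, A x y → ¬ (f x = f y ∨ f x = f y + 1) :=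
    fun h => no_tight hor.asymm hf hmax h
  have hup : ∀ u v, G.Adj u v → f v = f u + 1 → A u v := by
    intro u v h1 h2
    rcases hor.arc_of_adj u v h1 with h | h
    · exact h
    · exact absurd (Or.inr h2) (htight h)
  let IsQ : (ℕ → V) → Prop := fun q => (∀ i, 1 ≤ i → i ≤ k → f (q i) = i) ∧
    (∀ i, 1 ≤ i → i < k → A (q i) (q (i + 1)))
  have hQ : ∀ q q', IsQ q → IsQ q' → ∀ i, 1 ≤ i → i ≤ k → q i = q' i := by
    intro q q' h h' i hi1 hi2
    have e1 := huniq.unique (isDirPath_of_levels (A := A) (f := f) (k := k) (q := q) 0 h.1 h.2)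
      (isDirPath_of_levels (A := A) (f := f) (k := k) (q := q') 0 h'.1 h'.2)
    have := congrFun e1 ⟨i - 1, by omega⟩
    simp only at this
    have e : i - 1 + 1 + 0 = i := by omega
    rw [e] at this
    exact this
  refine ⟨f, fun v => ∃ q, IsQ q ∧ q (f v) = v, fun v => (hf v).1, hle, ?_, ?_, ?_, ?_⟩
  · intro u v h e
    rcases hor.arc_of_adj u v h with h' | h'
    · exact htight h' (Or.inl e)
    · exact htight h' (Or.inl e.symm)
  · intro v hv
    obtain ⟨q, h1, h2, h3⟩ := asc hf (f v) v rfl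
    rw [hv] at h2 h3
    exact ⟨q, ⟨h2, h3⟩, h1⟩
  · rintro u v ⟨q, hq, hqv⟩ hadj hlev
    obtain ⟨r, h1, h2, h3⟩ := asc hf (f u) u rfl
    have hvk := hle v
    refine ⟨fun i => if i ≤ f u then r i else q i, ⟨?_, ?_⟩, ?_⟩
    · intro i hi1 hi2
      simp only
      split_ifs with h
      · exact h2 i hi1 h
      · exact hq.1 i hi1 hi2
    · intro i hi1 hi2
      simp only
      by_cases ha : i < f u
      · rw [if_pos (by omega), if_pos (by omega)]; exact h3 i hi1 ha
      · by_cases hb : i = f u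
        · rw [if_pos (by omega), if_neg (by omega), hb, h1, ← hlev, hqv]
          exact hup u v hadj hlev
        · rw [if_neg (by omega), if_neg (by omega)]; exact hq.2 i hi1 hi2
    · simp only [le_refl, if_true]; exact h1
  · rintro u v ⟨q, hq, hqu⟩ ⟨q', hq', hqv⟩ e
    rw [← hqu, ← hqv, e]
    exact hQ q q' hq hq' _ (hf v).1 (hle v)

end levels

section core

variable {V : Type} {k : ℕ} {Adj : V → V → Prop} {f : V → ℕ} {On : V → Prop}
  {x : Fin 7 → V} {K : Fin 7 → Fin (k - 3) → V}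

/-- The data of a copy of `G_k` with a level colouring and the set `On`. -/
structure Data (k : ℕ) (Adj : V → V → Prop) (f : V → ℕ) (On : V → Prop) (x : Fin 7 → V)
    (K : Fin 7 → Fin (k - 3) → V) : Prop where
  hk : 4 ≤ k
  symm : ∀ u v, Adj u v → Adj v u
  one_le : ∀ v, 1 ≤ f v
  le_k : ∀ v, f v ≤ k
  proper : ∀ u v, Adj u v → f u ≠ f v
  top : ∀ v, f v = k → On v
  down : ∀ u v, On v → Adj u v → f v = f u + 1 → On u
  uniq : ∀ u v, On u → On v → f u = f v → u = v
  ax : ∀ i, Adj (x i) (x (i + 1))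
  aK0 : ∀ i a, Adj (x i) (K i a)
  aK1 : ∀ i a, Adj (x (i + 1)) (K i a)
  aK3 : ∀ i a, Adj (x (i + 3)) (K i a)
  aKK : ∀ i a b, a ≠ b → Adj (K i a) (K i b)
  nx : Function.Injective x
  nK : ∀ i j a b, K i a = K j b → i = j
  nxK : ∀ i j a, x i ≠ K j a

/-- The clique `i` has a vertex of level `l`. -/
def Has (f : V → ℕ) (K : Fin 7 → Fin (k - 3) → V) (i : Fin 7) (l : ℕ) : Prop :=
  ∃ a, f (K i a) = l

lemma Data.exact (D : Data k Adj f On x K) (i : Fin 7) {s t r : ℕ} (hst : s ≠ t) (hsr : s ≠ r)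
    (htr : t ≠ r) (hs : 1 ≤ s ∧ s ≤ k) (ht : 1 ≤ t ∧ t ≤ k) (hr : 1 ≤ r ∧ r ≤ k)
    (hs' : ¬ Has f K i s) (ht' : ¬ Has f K i t) (hr' : ¬ Has f K i r) {l : ℕ} (h1 : 1 ≤ l)
    (h2 : l ≤ k) (hls : l ≠ s) (hlt : l ≠ t) (hlr : l ≠ r) : Has f K i l := by
  classical
  have hinj : Function.Injective (fun a => f (K i a)) := by
    intro a b hab
    by_contra hne
    exact D.proper _ _ (D.aKK i a b hne) hab
  have hc1 : (Finset.univ.image (fun a => f (K i a))).card = k - 3 := by
    rw [Finset.card_image_of_injective _ hinj]; simp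
  have hsub : Finset.univ.image (fun a => f (K i a)) ⊆
      (((Finset.Icc 1 k).erase s).erase t).erase r := by
    intro m hm
    simp only [Finset.mem_image, Finset.mem_univ, true_and] at hm
    obtain ⟨a, ha⟩ := hm
    simp only [Finset.mem_erase, Finset.mem_Icc]
    refine ⟨fun e => hr' ⟨a, ha.trans e⟩, fun e => ht' ⟨a, ha.trans e⟩,
      fun e => hs' ⟨a, ha.trans e⟩, ?_, ?_⟩
    · rw [← ha]; exact D.one_le _
    · rw [← ha]; exact D.le_k _
  have hc2 : ((((Finset.Icc 1 k).erase s).erase t).erase r).card = k - 3 := by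
    rw [Finset.card_erase_of_mem, Finset.card_erase_of_mem, Finset.card_erase_of_mem,
      Nat.card_Icc]
    · omega
    · simp only [Finset.mem_Icc]; omega
    · simp only [Finset.mem_erase, Finset.mem_Icc]; omega
    · simp only [Finset.mem_erase, Finset.mem_Icc]; omega
  have heq := Finset.eq_of_subset_of_card_le hsub (by rw [hc1, hc2])
  have : l ∈ Finset.univ.image (fun a => f (K i a)) := by
    rw [heq]
    simp only [Finset.mem_erase, Finset.mem_Icc]
    omega
  simp only [Finset.mem_image, Finset.mem_univ, true_and] at this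
  exact this

lemma Data.nhas (D : Data k Adj f On x K) {i : Fin 7} {u : V} (h : ∀ a, Adj u (K i a)) :
    ¬ Has f K i (f u) := by
  rintro ⟨a, ha⟩
  exact D.proper _ _ (h a) ha.symm

/-- A clique without the top level whose first two cycle neighbours are below the top level
contains every other level below the top. -/
lemma Data.exactK (D : Data k Adj f On x K) {i : Fin 7} {u v : V} (hu : ∀ a, Adj u (K i a))
    (hv : ∀ a, Adj v (K i a)) (huv : f u ≠ f v) (huk : f u ≠ k) (hvk : f v ≠ k)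
    (hik : ¬ Has f K i k) {l : ℕ} (h1 : 1 ≤ l) (h2 : l < k) (hlu : l ≠ f u) (hlv : l ≠ f v) :
    Has f K i l := by
  have hk := D.hk
  exact D.exact i huv huk hvk ⟨D.one_le _, D.le_k _⟩ ⟨D.one_le _, D.le_k _⟩ ⟨by omega, le_refl _⟩
    (D.nhas hu) (D.nhas hv) hik h1 h2.le hlu hlv (by omega)

lemma Data.F2 (D : Data k Adj f On x K) (i : Fin 7) (h0 : f (x i) ≠ k) (h1 : f (x (i + 1)) ≠ k)
    (h3 : f (x (i + 3)) ≠ k) (hik : ¬ Has f K i k) :
    f (x (i + 3)) = f (x i) ∨ f (x (i + 3)) = f (x (i + 1)) := by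
  by_contra hcon
  push Not at hcon
  have := D.le_k (x (i + 3))
  exact D.nhas (D.aK3 i) (D.exactK (D.aK0 i) (D.aK1 i) (D.proper _ _ (D.ax i)) h0 h1 hik
    (D.one_le _) (by omega) hcon.1 hcon.2)

lemma Data.two (D : Data k Adj f On x K) {u v w : V} (hw : On w) (huv : u ≠ v) (hu : Adj u w)
    (hv : Adj v w) (h1 : f w = f u + 1) (h2 : f w = f v + 1) : False :=
  huv (D.uniq u v (D.down u w hw hu h1) (D.down v w hw hv h2) (by omega))

/-- Two cliques. -/
lemma Data.cc (D : Data k Adj f On x K) {w : V} (hw : On w) {i j : Fin 7} (hij : i ≠ j)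
    (hi : ∀ a, Adj w (K i a)) (hj : ∀ a, Adj w (K j a)) {l : ℕ} (hl : f w = l + 1)
    (h1 : Has f K i l) (h2 : Has f K j l) : False := by
  obtain ⟨a, ha⟩ := h1
  obtain ⟨b, hb⟩ := h2
  exact D.two hw (fun e => hij (D.nK _ _ _ _ e)) (D.symm _ _ (hi a)) (D.symm _ _ (hj b))
    (by omega) (by omega)

/-- A cycle vertex and a clique. -/
lemma Data.xc (D : Data k Adj f On x K) {w : V} (hw : On w) {i j : Fin 7}
    (hi : Adj (x i) w) (hj : ∀ a, Adj w (K j a)) (hl : f w = f (x i) + 1)
    (h2 : Has f K j (f (x i))) : False := by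
  obtain ⟨b, hb⟩ := h2
  exact D.two hw (D.nxK _ _ _) hi (D.symm _ _ (hj b)) hl (by omega)

/-- Descending inside a clique. -/
lemma Data.descend (D : Data k Adj f On x K) {i : Fin 7} {u : V} (hu : ∀ a, Adj u (K i a)) :
    ∀ n a, f (K i a) = f u + 1 + n → On (K i a) →
      (∀ m, f u < m → m < f (K i a) → Has f K i m) → On u := by
  intro n
  induction n with
  | zero =>
    intro a h1 h2 _
    exact D.down u _ h2 (hu a) (by omega)
  | succ n ih =>
    intro a h1 h2 h3
    obtain ⟨b, hb⟩ := h3 (f (K i a) - 1) (by omega) (by omega)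
    have hab : b ≠ a := by rintro rfl; omega
    refine ih b (by omega) (D.down _ _ h2 (D.aKK i b a hab) (by omega)) ?_
    intro m hm1 hm2
    exact h3 m hm1 (by omega)

lemma Data.descend' (D : Data k Adj f On x K) {i : Fin 7} {u : V} (hu : ∀ a, Adj u (K i a))
    {a : Fin (k - 3)} (h1 : f u < f (K i a)) (h2 : On (K i a))
    (h3 : ∀ m, f u < m → m < f (K i a) → Has f K i m) : On u :=
  D.descend hu (f (K i a) - (f u + 1)) a (by omega) h2 h3

/-- No vertex at the top level: impossible. -/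
lemma Data.notop (D : Data k Adj f On x K) (h : ∀ v, f v ≠ k) : False := by
  have F := fun i => D.F2 i (h _) (h _) (h _) (fun ⟨a, ha⟩ => h _ ha)
  have P := fun i => D.proper _ _ (D.ax i)
  have F0 : f (x 3) = f (x 0) ∨ f (x 3) = f (x 1) := F 0
  have F1 : f (x 4) = f (x 1) ∨ f (x 4) = f (x 2) := F 1
  have F2 : f (x 5) = f (x 2) ∨ f (x 5) = f (x 3) := F 2
  have F3 : f (x 6) = f (x 3) ∨ f (x 6) = f (x 4) := F 3
  have F4 : f (x 0) = f (x 4) ∨ f (x 0) = f (x 5) := F 4
  have F5 : f (x 1) = f (x 5) ∨ f (x 1) = f (x 6) := F 5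
  have F6 : f (x 2) = f (x 6) ∨ f (x 2) = f (x 0) := F 6
  have P0 : f (x 0) ≠ f (x 1) := P 0
  have P1 : f (x 1) ≠ f (x 2) := P 1
  have P2 : f (x 2) ≠ f (x 3) := P 2
  have P3 : f (x 3) ≠ f (x 4) := P 3
  have P4 : f (x 4) ≠ f (x 5) := P 4
  have P5 : f (x 5) ≠ f (x 6) := P 5
  have P6 : f (x 6) ≠ f (x 0) := P 6
  clear F P
  generalize f (x 0) = c0 at *
  generalize f (x 1) = c1 at *
  generalize f (x 2) = c2 at *
  generalize f (x 3) = c3 at *
  generalize f (x 4) = c4 at *
  generalize f (x 5) = c5 at *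
  generalize f (x 6) = c6 at *
  rcases F0 with rfl | rfl <;> rcases F1 with rfl | rfl <;> rcases F2 with rfl | rfl <;>
    first
    | exact absurd rfl ‹_›
    | skip
  all_goals (rcases F3 with h3 | h3 <;> rcases F4 with h4 | h4 <;> rcases F5 with h5 | h5 <;>
    rcases F6 with h6 | h6 <;> omega)

/-- The top level vertex lies in the clique `K 0`: impossible. -/
lemma Data.caseA (D : Data k Adj f On x K) {a0 : Fin (k - 3)} (h : f (K 0 a0) = k) : False := by
  have hk := D.hk
  have hOn : On (K 0 a0) := D.top _ h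
  have hother : ∀ v, v ≠ K 0 a0 → f v ≠ k := fun v hv hvk =>
    hv (D.uniq v _ (D.top v hvk) hOn (by omega))
  have hx : ∀ i, f (x i) ≠ k := fun i => hother _ (D.nxK _ _ _)
  have hx1 : ∀ i, 1 ≤ f (x i) := fun i => D.one_le _
  have hxk : ∀ i, f (x i) ≤ k := fun i => D.le_k _
  have hik : ∀ i, i ≠ 0 → ¬ Has f K i k := by
    rintro i hi ⟨a, ha⟩
    exact hother _ (fun e => hi (D.nK _ _ _ _ e)) ha
  have P := fun i => D.proper _ _ (D.ax i)
  have F := fun i (hi : i ≠ 0) => D.F2 i (hx _) (hx _) (hx _) (hik i hi)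
  have F1 : f (x 4) = f (x 1) ∨ f (x 4) = f (x 2) := F 1 (by decide)
  have F2 : f (x 5) = f (x 2) ∨ f (x 5) = f (x 3) := F 2 (by decide)
  have F3 : f (x 6) = f (x 3) ∨ f (x 6) = f (x 4) := F 3 (by decide)
  have F4 : f (x 0) = f (x 4) ∨ f (x 0) = f (x 5) := F 4 (by decide)
  have F5 : f (x 1) = f (x 5) ∨ f (x 1) = f (x 6) := F 5 (by decide)
  have F6 : f (x 2) = f (x 6) ∨ f (x 2) = f (x 0) := F 6 (by decide)
  have P0 : f (x 0) ≠ f (x 1) := P 0
  have P1 : f (x 1) ≠ f (x 2) := P 1
  have P2 : f (x 2) ≠ f (x 3) := P 2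
  have P3 : f (x 3) ≠ f (x 4) := P 3
  have P4 : f (x 4) ≠ f (x 5) := P 4
  have P5 : f (x 5) ≠ f (x 6) := P 5
  have P6 : f (x 6) ≠ f (x 0) := P 6
  have pat : f (x 0) = f (x 2) ∧ f (x 5) = f (x 2) ∧ f (x 4) = f (x 1) ∧ f (x 6) = f (x 1) ∧
      f (x 3) ≠ f (x 1) ∧ f (x 3) ≠ f (x 2) := by
    clear F P hx hx1 hxk hother hik
    generalize f (x 0) = c0 at *
    generalize f (x 1) = c1 at *
    generalize f (x 2) = c2 at *
    generalize f (x 3) = c3 at *
    generalize f (x 4) = c4 at *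
    generalize f (x 5) = c5 at *
    generalize f (x 6) = c6 at *
    rcases F1 with h1 | h1 <;> rcases F2 with h2 | h2 <;> rcases F3 with h3 | h3 <;>
      rcases F4 with h4 | h4 <;> rcases F5 with h5 | h5 <;> rcases F6 with h6 | h6 <;> omega
  obtain ⟨e0, e5, e4, e6, n31, n32⟩ := pat
  clear F1 F2 F3 F4 F5 F6 P0 P2 P3 P4 P5 P6
  have K0 : ∀ m, 1 ≤ m → m ≤ k → m ≠ f (x 2) → m ≠ f (x 1) → m ≠ f (x 3) → Has f K 0 m := by
    intro m h1 h2 h3 h4 h5
    exact D.exact 0 (s := f (x 0)) (t := f (x 1)) (r := f (x 3)) (by omega) (by omega) (by omega)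
      ⟨hx1 _, hxk _⟩ ⟨hx1 _, hxk _⟩ ⟨hx1 _, hxk _⟩ (D.nhas (D.aK0 0)) (D.nhas (D.aK1 0))
      (D.nhas (D.aK3 0)) h1 h2 (by omega) (by omega) (by omega)
  have E : ∀ i, i ≠ 0 → ∀ m, 1 ≤ m → m < k → m ≠ f (x i) → m ≠ f (x (i + 1)) → Has f K i m :=
    fun i hi m h1 h2 h3 h4 =>
      D.exactK (D.aK0 i) (D.aK1 i) (P i) (hx _) (hx _) (hik i hi) h1 h2 h3 h4
  have E1 : ∀ m, 1 ≤ m → m < k → m ≠ f (x 1) → m ≠ f (x 2) → Has f K 1 m := E 1 (by decide)
  have E2 : ∀ m, 1 ≤ m → m < k → m ≠ f (x 2) → m ≠ f (x 3) → Has f K 2 m := E 2 (by decide)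
  have E3 : ∀ m, 1 ≤ m → m < k → m ≠ f (x 3) → m ≠ f (x 4) → Has f K 3 m := E 3 (by decide)
  have E4 : ∀ m, 1 ≤ m → m < k → m ≠ f (x 4) → m ≠ f (x 5) → Has f K 4 m := E 4 (by decide)
  have E5 : ∀ m, 1 ≤ m → m < k → m ≠ f (x 5) → m ≠ f (x 6) → Has f K 5 m := E 5 (by decide)
  have E6 : ∀ m, 1 ≤ m → m < k → m ≠ f (x 6) → m ≠ f (x 0) → Has f K 6 m := E 6 (by decide)
  have b1 := hx1 1
  have b2 := hx1 2
  have b3 := hx1 3
  have t1 := hxk 1
  have t2 := hxk 2
  have t3 := hxk 3
  have u1 := hx 1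
  have u2 := hx 2
  have u3 := hx 3
  have A01 : ∀ a, Adj (x 0) (K 0 a) := D.aK0 0
  have A64 : ∀ a, Adj (x 0) (K 4 a) := D.aK3 4
  have A66 : ∀ a, Adj (x 0) (K 6 a) := D.aK1 6
  have A10 : ∀ a, Adj (x 1) (K 0 a) := D.aK1 0
  have A11 : ∀ a, Adj (x 1) (K 1 a) := D.aK0 1
  have A15 : ∀ a, Adj (x 1) (K 5 a) := D.aK3 5
  have A30 : ∀ a, Adj (x 3) (K 0 a) := D.aK3 0
  have A32 : ∀ a, Adj (x 3) (K 2 a) := D.aK1 2
  have A33 : ∀ a, Adj (x 3) (K 3 a) := D.aK0 3
  have X01 : Adj (x 0) (x 1) := D.ax 0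
  have X12 : Adj (x 1) (x 2) := D.ax 1
  have X23 : Adj (x 2) (x 3) := D.ax 2
  have X34 : Adj (x 3) (x 4) := D.ax 3
  have X60 : Adj (x 6) (x 0) := D.ax 6
  by_cases hb : f (x 1) < f (x 2) ∧ f (x 3) < f (x 2)
  · -- descend to `x 0`
    have hOn0 : On (x 0) := D.descend' A01 (by omega) hOn (fun m h1 h2 =>
      K0 m (by omega) (by omega) (by omega) (by omega) (by omega))
    by_cases hc : f (x 2) = f (x 1) + 1
    · exact D.two hOn0 (D.nx.ne (by decide : (1 : Fin 7) ≠ 6)) (D.symm _ _ X01) X60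
        (by omega) (by omega)
    · exact D.cc hOn0 (by decide : (6 : Fin 7) ≠ 4) A66 A64 (l := f (x 2) - 1) (by omega)
        (E6 _ (by omega) (by omega) (by omega) (by omega))
        (E4 _ (by omega) (by omega) (by omega) (by omega))
  · by_cases ha : f (x 2) < f (x 1) ∧ f (x 3) < f (x 1)
    · have hOn1 : On (x 1) := D.descend' A10 (by omega) hOn (fun m h1 h2 =>
        K0 m (by omega) (by omega) (by omega) (by omega) (by omega))
      by_cases hc : f (x 1) = f (x 2) + 1
      · exact D.two hOn1 (D.nx.ne (by decide : (0 : Fin 7) ≠ 2)) X01 (D.symm _ _ X12)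
          (by omega) (by omega)
      · exact D.cc hOn1 (by decide : (1 : Fin 7) ≠ 5) A11 A15 (l := f (x 1) - 1) (by omega)
          (E1 _ (by omega) (by omega) (by omega) (by omega))
          (E5 _ (by omega) (by omega) (by omega) (by omega))
    · have hd : f (x 2) < f (x 3) ∧ f (x 1) < f (x 3) := by omega
      have hOn3 : On (x 3) := D.descend' A30 (by omega) hOn (fun m h1 h2 =>
        K0 m (by omega) (by omega) (by omega) (by omega) (by omega))
      by_cases hc : f (x 3) = f (x 1) + 1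
      · exact D.xc hOn3 (i := 4) (D.symm _ _ X34) A32 (by omega)
          (E2 _ (by omega) (by omega) (by omega) (by omega))
      · by_cases hc' : f (x 3) = f (x 2) + 1
        · exact D.xc hOn3 (i := 2) X23 A33 (by omega)
            (E3 _ (by omega) (by omega) (by omega) (by omega))
        · exact D.cc hOn3 (by decide : (2 : Fin 7) ≠ 3) A32 A33 (l := f (x 3) - 1) (by omega)
            (E2 _ (by omega) (by omega) (by omega) (by omega))
            (E3 _ (by omega) (by omega) (by omega) (by omega))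

/-- The top level vertex is the cycle vertex `x 0`: impossible. -/
lemma Data.caseB (D : Data k Adj f On x K) (h : f (x 0) = k) : False := by
  have hk := D.hk
  have hOn : On (x 0) := D.top _ h
  have hother : ∀ v, v ≠ x 0 → f v ≠ k := fun v hv hvk =>
    hv (D.uniq v _ (D.top v hvk) hOn (by omega))
  have hx : ∀ i, i ≠ 0 → f (x i) ≠ k := fun i hi => hother _ (fun e => hi (D.nx e))
  have hx1 : ∀ i, 1 ≤ f (x i) := fun i => D.one_le _
  have hxk : ∀ i, f (x i) ≤ k := fun i => D.le_k _
  have hik : ∀ i, ¬ Has f K i k := by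
    rintro i ⟨a, ha⟩
    exact hother _ (fun e => D.nxK _ _ _ e.symm) ha
  have P := fun i => D.proper _ _ (D.ax i)
  have F1 : f (x 4) = f (x 1) ∨ f (x 4) = f (x 2) :=
    D.F2 1 (hx _ (by decide)) (hx _ (by decide)) (hx _ (by decide)) (hik _)
  have F2 : f (x 5) = f (x 2) ∨ f (x 5) = f (x 3) :=
    D.F2 2 (hx _ (by decide)) (hx _ (by decide)) (hx _ (by decide)) (hik _)
  have F3 : f (x 6) = f (x 3) ∨ f (x 6) = f (x 4) :=
    D.F2 3 (hx _ (by decide)) (hx _ (by decide)) (hx _ (by decide)) (hik _)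
  have F5 : f (x 1) = f (x 5) ∨ f (x 1) = f (x 6) :=
    D.F2 5 (hx _ (by decide)) (hx _ (by decide)) (hx _ (by decide)) (hik _)
  have P1 : f (x 1) ≠ f (x 2) := P 1
  have P2 : f (x 2) ≠ f (x 3) := P 2
  have P3 : f (x 3) ≠ f (x 4) := P 3
  have P4 : f (x 4) ≠ f (x 5) := P 4
  have P5 : f (x 5) ≠ f (x 6) := P 5
  have pat : (f (x 3) = f (x 1) ∧ f (x 4) = f (x 2) ∧ f (x 5) = f (x 1) ∧ f (x 6) = f (x 2)) ∨
      (f (x 3) ≠ f (x 1) ∧ f (x 4) = f (x 1) ∧ f (x 5) = f (x 2) ∧ f (x 6) = f (x 1)) ∨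
      (f (x 3) ≠ f (x 1) ∧ f (x 4) = f (x 1) ∧ f (x 5) = f (x 3) ∧ f (x 6) = f (x 1)) := by
    clear P hx hx1 hxk hother hik
    generalize f (x 1) = c1 at *
    generalize f (x 2) = c2 at *
    generalize f (x 3) = c3 at *
    generalize f (x 4) = c4 at *
    generalize f (x 5) = c5 at *
    generalize f (x 6) = c6 at *
    rcases F1 with h1 | h1 <;> rcases F2 with h2 | h2 <;> rcases F3 with h3 | h3 <;>
      rcases F5 with h5 | h5 <;> omega
  have E1 : ∀ m, 1 ≤ m → m < k → m ≠ f (x 1) → m ≠ f (x 2) → Has f K 1 m :=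
    fun m h1 h2 h3 h4 => D.exactK (D.aK0 1) (D.aK1 1) (P 1) (hx _ (by decide)) (hx _ (by decide))
      (hik 1) h1 h2 h3 h4
  have E2 : ∀ m, 1 ≤ m → m < k → m ≠ f (x 2) → m ≠ f (x 3) → Has f K 2 m :=
    fun m h1 h2 h3 h4 => D.exactK (D.aK0 2) (D.aK1 2) (P 2) (hx _ (by decide)) (hx _ (by decide))
      (hik 2) h1 h2 h3 h4
  have E3 : ∀ m, 1 ≤ m → m < k → m ≠ f (x 3) → m ≠ f (x 4) → Has f K 3 m :=
    fun m h1 h2 h3 h4 => D.exactK (D.aK0 3) (D.aK1 3) (P 3) (hx _ (by decide)) (hx _ (by decide))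
      (hik 3) h1 h2 h3 h4
  have E4 : ∀ m, 1 ≤ m → m < k → m ≠ f (x 4) → m ≠ f (x 5) → Has f K 4 m :=
    fun m h1 h2 h3 h4 => D.exactK (D.aK0 4) (D.aK1 4) (P 4) (hx _ (by decide)) (hx _ (by decide))
      (hik 4) h1 h2 h3 h4
  have E5 : ∀ m, 1 ≤ m → m < k → m ≠ f (x 5) → m ≠ f (x 6) → Has f K 5 m :=
    fun m h1 h2 h3 h4 => D.exactK (D.aK0 5) (D.aK1 5) (P 5) (hx _ (by decide)) (hx _ (by decide))
      (hik 5) h1 h2 h3 h4
  have E0 : f (x 1) ≠ f (x 3) → ∀ m, 1 ≤ m → m < k → m ≠ f (x 1) → m ≠ f (x 3) → Has f K 0 m :=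
    fun hne m h1 h2 h3 h4 => D.exactK (D.aK1 0) (D.aK3 0) hne (hx _ (by decide))
      (hx _ (by decide)) (hik 0) h1 h2 h3 h4
  have E6 : f (x 6) ≠ f (x 2) → ∀ m, 1 ≤ m → m < k → m ≠ f (x 6) → m ≠ f (x 2) → Has f K 6 m :=
    fun hne m h1 h2 h3 h4 => D.exactK (D.aK0 6) (D.aK3 6) hne (hx _ (by decide))
      (hx _ (by decide)) (hik 6) h1 h2 h3 h4
  have b1 := hx1 1
  have b2 := hx1 2
  have b3 := hx1 3
  have t1 := hxk 1
  have t2 := hxk 2
  have t3 := hxk 3
  have u1 := hx 1 (by decide)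
  have u2 := hx 2 (by decide)
  have u3 := hx 3 (by decide)
  have A00 : ∀ a, Adj (x 0) (K 0 a) := D.aK0 0
  have A04 : ∀ a, Adj (x 0) (K 4 a) := D.aK3 4
  have A06 : ∀ a, Adj (x 0) (K 6 a) := D.aK1 6
  have A10 : ∀ a, Adj (x 1) (K 0 a) := D.aK1 0
  have A11 : ∀ a, Adj (x 1) (K 1 a) := D.aK0 1
  have A15 : ∀ a, Adj (x 1) (K 5 a) := D.aK3 5
  have A21 : ∀ a, Adj (x 2) (K 1 a) := D.aK1 1
  have A22 : ∀ a, Adj (x 2) (K 2 a) := D.aK0 2
  have A26 : ∀ a, Adj (x 2) (K 6 a) := D.aK3 6
  have A30 : ∀ a, Adj (x 3) (K 0 a) := D.aK3 0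
  have A32 : ∀ a, Adj (x 3) (K 2 a) := D.aK1 2
  have A33 : ∀ a, Adj (x 3) (K 3 a) := D.aK0 3
  have A41 : ∀ a, Adj (x 4) (K 1 a) := D.aK3 1
  have A43 : ∀ a, Adj (x 4) (K 3 a) := D.aK1 3
  have A44 : ∀ a, Adj (x 4) (K 4 a) := D.aK0 4
  have A52 : ∀ a, Adj (x 5) (K 2 a) := D.aK3 2
  have A54 : ∀ a, Adj (x 5) (K 4 a) := D.aK1 4
  have A55 : ∀ a, Adj (x 5) (K 5 a) := D.aK0 5
  have A63 : ∀ a, Adj (x 6) (K 3 a) := D.aK3 3
  have A65 : ∀ a, Adj (x 6) (K 5 a) := D.aK1 5
  have A66 : ∀ a, Adj (x 6) (K 6 a) := D.aK0 6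
  have X01 : Adj (x 0) (x 1) := D.ax 0
  have X12 : Adj (x 1) (x 2) := D.ax 1
  have X23 : Adj (x 2) (x 3) := D.ax 2
  have X34 : Adj (x 3) (x 4) := D.ax 3
  have X45 : Adj (x 4) (x 5) := D.ax 4
  have X56 : Adj (x 5) (x 6) := D.ax 5
  have X60 : Adj (x 6) (x 0) := D.ax 6
  rcases pat with ⟨e3, e4, e5, e6⟩ | ⟨e3, e4, e5, e6⟩ | ⟨e3, e4, e5, e6⟩
  · -- pattern (k, a, b, a, b, a, b)
    by_cases ha : f (x 1) + 1 = k
    · have hOn1 : On (x 1) := D.down _ _ hOn (D.symm _ _ X01) (by omega)
      by_cases hb : f (x 2) + 2 = k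
      · have hOn2 : On (x 2) := D.down _ _ hOn1 (D.symm _ _ X12) (by omega)
        exact D.cc hOn2 (by decide : (2 : Fin 7) ≠ 1) A22 A21 (l := k - 3) (by omega)
          (E2 _ (by omega) (by omega) (by omega) (by omega))
          (E1 _ (by omega) (by omega) (by omega) (by omega))
      · exact D.cc hOn1 (by decide : (1 : Fin 7) ≠ 5) A11 A15 (l := k - 2) (by omega)
          (E1 _ (by omega) (by omega) (by omega) (by omega))
          (E5 _ (by omega) (by omega) (by omega) (by omega))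
    · by_cases hb : f (x 2) + 1 = k
      · have hOn6 : On (x 6) := D.down _ _ hOn X60 (by omega)
        by_cases ha : f (x 1) + 2 = k
        · have hOn5 : On (x 5) := D.down _ _ hOn6 X56 (by omega)
          exact D.cc hOn5 (by decide : (5 : Fin 7) ≠ 2) A55 A52 (l := k - 3) (by omega)
            (E5 _ (by omega) (by omega) (by omega) (by omega))
            (E2 _ (by omega) (by omega) (by omega) (by omega))
        · exact D.cc hOn6 (by decide : (5 : Fin 7) ≠ 3) A65 A63 (l := k - 2) (by omega)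
            (E5 _ (by omega) (by omega) (by omega) (by omega))
            (E3 _ (by omega) (by omega) (by omega) (by omega))
      · obtain ⟨a, haK⟩ := E4 (k - 1) (by omega) (by omega) (by omega) (by omega)
        have hOnK : On (K 4 a) := D.down _ _ hOn (D.symm _ _ (A04 a)) (by omega)
        by_cases hab : f (x 2) < f (x 1)
        · have hOn5 : On (x 5) := D.descend' A54 (by omega) hOnK (fun m h1 h2 =>
            E4 m (by omega) (by omega) (by omega) (by omega))
          by_cases hc : f (x 1) = f (x 2) + 1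
          · exact D.two hOn5 (D.nx.ne (by decide : (4 : Fin 7) ≠ 6)) X45 (D.symm _ _ X56)
              (by omega) (by omega)
          · exact D.cc hOn5 (by decide : (5 : Fin 7) ≠ 2) A55 A52 (l := f (x 1) - 1) (by omega)
              (E5 _ (by omega) (by omega) (by omega) (by omega))
              (E2 _ (by omega) (by omega) (by omega) (by omega))
        · have hOn4 : On (x 4) := D.descend' A44 (by omega) hOnK (fun m h1 h2 =>
            E4 m (by omega) (by omega) (by omega) (by omega))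
          by_cases hc : f (x 2) = f (x 1) + 1
          · exact D.two hOn4 (D.nx.ne (by decide : (3 : Fin 7) ≠ 5)) X34 (D.symm _ _ X45)
              (by omega) (by omega)
          · exact D.cc hOn4 (by decide : (3 : Fin 7) ≠ 1) A43 A41 (l := f (x 2) - 1) (by omega)
              (E3 _ (by omega) (by omega) (by omega) (by omega))
              (E1 _ (by omega) (by omega) (by omega) (by omega))
  · -- pattern (k, a, b, d, a, b, a)
    by_cases ha : f (x 1) + 1 = k
    · exact D.two hOn (D.nx.ne (by decide : (1 : Fin 7) ≠ 6)) (D.symm _ _ X01) X60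
        (by omega) (by omega)
    · by_cases hb : f (x 2) + 1 = k
      · obtain ⟨a, haK⟩ := E0 (by omega) (k - 1) (by omega) (by omega) (by omega) (by omega)
        have hOnK : On (K 0 a) := D.down _ _ hOn (D.symm _ _ (A00 a)) (by omega)
        by_cases hab : f (x 3) < f (x 1)
        · have hOn1 : On (x 1) := D.descend' A10 (by omega) hOnK (fun m h1 h2 =>
            E0 (by omega) m (by omega) (by omega) (by omega) (by omega))
          exact D.cc hOn1 (by decide : (1 : Fin 7) ≠ 5) A11 A15 (l := f (x 1) - 1) (by omega)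
            (E1 _ (by omega) (by omega) (by omega) (by omega))
            (E5 _ (by omega) (by omega) (by omega) (by omega))
        · have hOn3 : On (x 3) := D.descend' A30 (by omega) hOnK (fun m h1 h2 =>
            E0 (by omega) m (by omega) (by omega) (by omega) (by omega))
          by_cases hc : f (x 3) = f (x 1) + 1
          · exact D.xc hOn3 (i := 4) (D.symm _ _ X34) A32 (by omega)
              (E2 _ (by omega) (by omega) (by omega) (by omega))
          · exact D.cc hOn3 (by decide : (2 : Fin 7) ≠ 3) A32 A33 (l := f (x 3) - 1) (by omega)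
              (E2 _ (by omega) (by omega) (by omega) (by omega))
              (E3 _ (by omega) (by omega) (by omega) (by omega))
      · exact D.cc hOn (by decide : (6 : Fin 7) ≠ 4) A06 A04 (l := k - 1) (by omega)
          (E6 (by omega) _ (by omega) (by omega) (by omega) (by omega))
          (E4 _ (by omega) (by omega) (by omega) (by omega))
  · -- pattern (k, a, b, d, a, d, a)
    by_cases ha : f (x 1) + 1 = k
    · exact D.two hOn (D.nx.ne (by decide : (1 : Fin 7) ≠ 6)) (D.symm _ _ X01) X60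
        (by omega) (by omega)
    · by_cases hd : f (x 3) + 1 = k
      · obtain ⟨a, haK⟩ := E6 (by omega) (k - 1) (by omega) (by omega) (by omega) (by omega)
        have hOnK : On (K 6 a) := D.down _ _ hOn (D.symm _ _ (A06 a)) (by omega)
        by_cases hab : f (x 2) < f (x 1)
        · have hOn6 : On (x 6) := D.descend' A66 (by omega) hOnK (fun m h1 h2 =>
            E6 (by omega) m (by omega) (by omega) (by omega) (by omega))
          exact D.cc hOn6 (by decide : (5 : Fin 7) ≠ 3) A65 A63 (l := f (x 1) - 1) (by omega)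
            (E5 _ (by omega) (by omega) (by omega) (by omega))
            (E3 _ (by omega) (by omega) (by omega) (by omega))
        · have hOn2 : On (x 2) := D.descend' A26 (by omega) hOnK (fun m h1 h2 =>
            E6 (by omega) m (by omega) (by omega) (by omega) (by omega))
          by_cases hc : f (x 2) = f (x 1) + 1
          · exact D.xc hOn2 (i := 1) X12 A22 (by omega)
              (E2 _ (by omega) (by omega) (by omega) (by omega))
          · exact D.cc hOn2 (by decide : (2 : Fin 7) ≠ 1) A22 A21 (l := f (x 2) - 1) (by omega)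
              (E2 _ (by omega) (by omega) (by omega) (by omega))
              (E1 _ (by omega) (by omega) (by omega) (by omega))
      · exact D.cc hOn (by decide : (0 : Fin 7) ≠ 4) A00 A04 (l := k - 1) (by omega)
          (E0 (by omega) _ (by omega) (by omega) (by omega) (by omega))
          (E4 _ (by omega) (by omega) (by omega) (by omega))

end core

/-- **For every `k ≥ 4` (in particular for every `k ≥ 6`) the graph `G_k` has no minimal
orientation.** -/
theorem result (k : ℕ) (hk : 4 ≤ k) :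
    ¬ ∃ A : Vert k → Vert k → Prop, IsMinimalOrientation k (graph k) A := by
  rintro ⟨A, hA⟩
  obtain ⟨f, On, h1, h2, h3, h4, h5, h6⟩ := exists_levels (by omega) hA
  have mk : ∀ j : Fin 7, Data k (graph k).Adj f On (fun i => (Sum.inl (j + i) : Vert k))
      (fun i a => (Sum.inr (j + i, a) : Vert k)) := by
    intro j
    refine ⟨hk, fun u v h => h.symm, h1, h2, h3, h4, h5, h6, ?_, ?_, ?_, ?_, ?_, ?_, ?_, ?_⟩
    · intro i
      exact Or.inl (by rw [add_assoc])
    · intro i a
      exact Or.inl rfl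
    · intro i a
      exact Or.inr (Or.inl (by rw [add_assoc]))
    · intro i a
      exact Or.inr (Or.inr (by rw [add_assoc]))
    · intro i a b hab
      exact ⟨rfl, hab⟩
    · intro a b hab
      simpa using hab
    · intro i i' a b hab
      simp only [Sum.inr.injEq, Prod.mk.injEq, add_right_inj] at hab
      exact hab.1
    · intro i i' a hab
      simp at hab
  by_cases hex : ∃ v, f v = k
  · obtain ⟨v, hv⟩ := hex
    rcases v with j | ⟨j, a⟩
    · exact (mk j).caseB (by simpa using hv)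
    · exact (mk j).caseA (a0 := a) (by simpa using hv)
  · push Not at hex
    exact (mk 0).notop hex

end Pool.Agent.Results.MP_c69494_co.NoMinimalOrientation
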